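import Pool.Agent.R677.FV.Count
import Pool.Agent.R677.FV.Chief

/-!
# A group of order 512 with chief length 9 in which at most 8 irreducible characters share a
field of values
-/

set_option autoImplicit false

namespace Pool.Agent.Results.MP_e983f0_al.FieldMultBelowChiefLength

/-- `chi` is an irreducible complex character of `G`. -/
def IsIrrChar {G : Type} [Group G] (chi : G → ℂ) : Prop :=
  ∃ (V : Type) (_ : AddCommGroup V) (_ : Module ℂ V) (_ : FiniteDimensional ℂ V)
    (rho : Representation ℂ G V), rho.IsIrreducible ∧ chi = rho.character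

/-- The field of values `ℚ(chi)`: the subfield of `ℂ` generated by the values of `chi`. -/
noncomputable def fieldOfValues {G : Type} (chi : G → ℂ) : Subfield ℂ := Subfield.closure (Set.range chi)

/-- `N 0 > N 1 > ... > N r` is a chief series of `G` with `r` factors: it starts at `G`, ends
at `1`, all its terms are normal in `G`, and no normal subgroup of `G` lies strictly between two
consecutive terms. -/
def IsChiefSeries (G : Type) [Group G] (r : ℕ) (N : ℕ → Subgroup G) : Prop :=
  N 0 = ⊤ ∧ N r = ⊥ ∧ (∀ i ≤ r, (N i).Normal) ∧ ∀ i < r, N (i + 1) < N i ∧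
    ∀ K : Subgroup G, K.Normal → N (i + 1) ≤ K → K ≤ N i → K = N (i + 1) ∨ K = N i

/-- There is a group `G` of order `512` which has a chief series with `9` factors, while for every
subfield `F` of `ℂ` at most `8` irreducible characters of `G` have field of values `F`. Hence
`f(G) ≤ 8 < 9 = ℓ(G)`. -/
theorem result : ∃ (G : Type) (_ : Group G), Nat.card G = 512 ∧
    (∃ N : ℕ → Subgroup G, IsChiefSeries G 9 N) ∧
    ∀ F : Subfield ℂ, {chi : G → ℂ | IsIrrChar chi ∧ fieldOfValues chi = F}.encard ≤ 8 := by
  refine ⟨Pool.Agent.R677.FV.G512, inferInstance, Pool.Agent.R677.FV.card_G512, ?_, ?_⟩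
  · have hfin : Finite Pool.Agent.R677.FV.G512 := inferInstance
    exact Pool.Agent.R677.FV.chief_two 9 _ (by rw [Pool.Agent.R677.FV.card_G512]; norm_num)
  · exact Pool.Agent.R677.FV.field_le

end Pool.Agent.Results.MP_e983f0_al.FieldMultBelowChiefLength
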